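import Pool.Agent.H77.PM.Targets

/-!
Row REC of the board pmh_modules: a recursion with an ultrafilter.
-/

set_option autoImplicit false

open Set Filter Topology

namespace Pool.Agent.H32.PM

open Pool.Agent.H77.PM

theorem count_bound (B : ℕ) (P : ℕ → ℕ → Prop) (h : ∀ l, {k | P k l}.encard ≤ B) :
    {k | ∀ᶠ l in (hyperfilter ℕ : Filter ℕ), P k l}.encard ≤ B := by
  by_contra hc
  rw [not_le] at hc
  have h1 : ((B + 1 : ℕ) : ℕ∞) ≤ {k | ∀ᶠ l in (hyperfilter ℕ : Filter ℕ), P k l}.encard := by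
    have := Order.add_one_le_of_lt hc
    exact_mod_cast this
  obtain ⟨t, hts, ht⟩ := Set.exists_subset_encard_eq h1
  have htf : t.Finite := Set.finite_of_encard_le_coe (le_of_eq ht)
  have h2 : ∀ᶠ l in (hyperfilter ℕ : Filter ℕ), ∀ k ∈ t, P k l :=
    (Filter.eventually_all_finite htf).2 fun k hk => hts hk
  obtain ⟨l, hl⟩ := h2.exists
  have h3 : t.encard ≤ {k | P k l}.encard := Set.encard_le_encard fun k hk => hl k hk
  have h4 := h3.trans (h l)
  rw [ht] at h4
  have h5 : B + 1 ≤ B := by exact_mod_cast h4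
  omega

theorem ev_notMem {S : Set ℕ} (hS : S.Finite) :
    ∀ᶠ e in (hyperfilter ℕ : Filter ℕ), e ∉ S :=
  hyperfilter_le_cofinite hS.compl_mem_cofinite

theorem pf_REC : T_REC := by
  intro B R Q hB hsym hdiag hQ
  set B1 : ℕ → ℕ → Prop := fun k l => ∀ᶠ l' in (hyperfilter ℕ : Filter ℕ), R k l l' with hB1
  set B2 : ℕ → Prop := fun k => ∀ᶠ l in (hyperfilter ℕ : Filter ℕ), B1 k l with hB2
  have c1 : ∀ l, {k | B1 k l}.encard ≤ B := fun l => count_bound B (fun k l' => R k l l') (hB l)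
  have c2 : {k | B2 k}.encard ≤ B := count_bound B B1 c1
  set Inv : Finset ℕ → Prop := fun S =>
    (∀ k ∈ S, ∀ l ∈ S, ∀ l' ∈ S, l ≠ k → l' ≠ k → ¬ R k l l') ∧
    (∀ k ∈ S, ∀ l ∈ S, k ≠ l → ¬ B1 k l) ∧ ∀ k ∈ S, ¬ B2 k with hInv
  have step : ∀ S : Finset ℕ, Inv S → ∃ e, (∀ s ∈ S, s < e) ∧ Q S e ∧ Inv (insert e S) := by
    intro S hS
    obtain ⟨hS1, hS2, hS3⟩ := hS
    have ea : ∀ᶠ e in (hyperfilter ℕ : Filter ℕ), ∀ s ∈ S, s < e :=
      (Filter.eventually_all_finset S).2 fun s _ =>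
        (ev_notMem (Set.finite_Iic s)).mono fun e he => not_le.1 he
    have ec : ∀ᶠ e in (hyperfilter ℕ : Filter ℕ), ¬ B2 e :=
      ev_notMem (Set.finite_of_encard_le_coe c2)
    have ed : ∀ᶠ e in (hyperfilter ℕ : Filter ℕ), ∀ l ∈ S, ¬ B1 e l :=
      (Filter.eventually_all_finset S).2 fun l _ => ev_notMem (Set.finite_of_encard_le_coe (c1 l))
    have ee : ∀ᶠ e in (hyperfilter ℕ : Filter ℕ), ∀ l ∈ S, ∀ l' ∈ S, ¬ R e l l' :=
      (Filter.eventually_all_finset S).2 fun l _ => (Filter.eventually_all_finset S).2 fun l' _ =>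
        ev_notMem (Set.finite_of_encard_le_coe (hB l l'))
    have ef : ∀ᶠ e in (hyperfilter ℕ : Filter ℕ), ∀ k ∈ S, ¬ B1 k e :=
      (Filter.eventually_all_finset S).2 fun k hk => Ultrafilter.eventually_not.2 (hS3 k hk)
    have eg : ∀ᶠ e in (hyperfilter ℕ : Filter ℕ), ∀ k ∈ S, ∀ l ∈ S, k ≠ l → ¬ R k l e :=
      (Filter.eventually_all_finset S).2 fun k hk => (Filter.eventually_all_finset S).2 fun l hl =>
        Filter.eventually_imp_distrib_left.2 fun hkl =>
          Ultrafilter.eventually_not.2 (hS2 k hk l hl hkl)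
    obtain ⟨e, ⟨⟨⟨⟨⟨⟨ha, hb⟩, hc⟩, hd⟩, he⟩, hf⟩, hg⟩⟩ :=
      ((((((ea.and (hQ S)).and ec).and ed).and ee).and ef).and eg).exists
    refine ⟨e, ha, hb, ?_, ?_, ?_⟩
    · intro k hk l hl l' hl' hlk hlk'
      rw [Finset.mem_insert] at hk hl hl'
      rcases hk with rfl | hk
      · exact he l (hl.resolve_left hlk) l' (hl'.resolve_left hlk')
      · rcases hl with rfl | hl
        · rcases hl' with rfl | hl'
          · intro hR
            exact hf k hk (Eventually.of_forall fun l' => hdiag k _ l' hR)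
          · intro hR
            exact hg k hk l' hl' (Ne.symm hlk') (hsym _ _ _ hR)
        · rcases hl' with rfl | hl'
          · exact hg k hk l hl (Ne.symm hlk)
          · exact hS1 k hk l hl l' hl' hlk hlk'
    · intro k hk l hl hkl
      rw [Finset.mem_insert] at hk hl
      rcases hk with rfl | hk
      · exact hd l (hl.resolve_left (Ne.symm hkl))
      · rcases hl with rfl | hl
        · exact hf k hk
        · exact hS2 k hk l hl hkl
    · intro k hk
      rw [Finset.mem_insert] at hk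
      rcases hk with rfl | hk
      · exact hc
      · exact hS3 k hk
  choose! ch hch1 hch2 hch3 using step
  obtain ⟨F, F0, FS⟩ : ∃ F : ℕ → Finset ℕ, F 0 = ∅ ∧ ∀ n, F (n + 1) = insert (ch (F n)) (F n) :=
    ⟨fun n => Nat.rec ∅ (fun _ S => insert (ch S) S) n, rfl, fun n => rfl⟩
  have hI : ∀ n, Inv (F n) := by
    intro n
    induction n with
    | zero =>
      rw [F0]
      refine ⟨?_, ?_, ?_⟩ <;> intro k hk <;> exact absurd hk (Finset.notMem_empty k)
    | succ n ih =>
      rw [FS]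
      exact hch3 _ ih
  obtain ⟨K, hK⟩ : ∃ K : ℕ → ℕ, ∀ n, K n = ch (F n) := ⟨fun n => ch (F n), fun n => rfl⟩
  have hFK : ∀ n, F n = (Finset.range n).image K := by
    intro n
    induction n with
    | zero => rw [F0]; rfl
    | succ n ih =>
      rw [Finset.range_add_one, Finset.image_insert, ← ih, FS, hK]
  have hmono : StrictMono K := by
    refine strictMono_nat_of_lt_succ fun n => ?_
    rw [hK (n + 1)]
    refine hch1 (F (n + 1)) (hI (n + 1)) (K n) ?_
    rw [FS, hK]
    exact Finset.mem_insert_self _ _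
  refine ⟨K, hmono, ?_, ?_⟩
  · intro k l l' hl hl'
    have hmem : ∀ j, j < k + l + l' + 1 → K j ∈ F (k + l + l' + 1) := by
      intro j hj
      rw [hFK]
      exact Finset.mem_image_of_mem K (Finset.mem_range.2 hj)
    exact (hI (k + l + l' + 1)).1 _ (hmem k (by omega)) _ (hmem l (by omega)) _
      (hmem l' (by omega)) (fun h => hl (hmono.injective h)) (fun h => hl' (hmono.injective h))
  · intro n
    rw [← hFK, hK]
    exact hch2 (F n) (hI n)

end Pool.Agent.H32.PM
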