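import Pool.Agent.H77.PM.Targets

/-!
Row SEP of the board pmh_modules: a sequence in a complete space converges along the ultrafilter or
is separated.
-/

set_option autoImplicit false

open Set Filter Topology

namespace Pool.Agent.H32.PM

open Pool.Agent.H77.PM

theorem pf_SEP : T_SEP := by
  intro M _ _ x
  by_cases h : ∀ ε : ℝ, 0 < ε → ∃ z, ∀ᶠ k in (hyperfilter ℕ : Filter ℕ), dist (x k) z < ε
  · left
    have hc : Cauchy (Filter.map x (hyperfilter ℕ : Filter ℕ)) := by
      rw [Metric.cauchy_iff]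
      refine ⟨inferInstance, fun ε hε => ?_⟩
      obtain ⟨z, hz⟩ := h (ε / 2) (half_pos hε)
      refine ⟨Metric.ball z (ε / 2), hz, fun a ha b hb => ?_⟩
      calc dist a b ≤ dist a z + dist b z := dist_triangle_right a b z
        _ < ε / 2 + ε / 2 := add_lt_add (Metric.mem_ball.1 ha) (Metric.mem_ball.1 hb)
        _ = ε := add_halves ε
    obtain ⟨p, hp⟩ := CompleteSpace.complete hc
    exact ⟨p, hp⟩
  · right
    simp only [not_forall, not_exists] at h
    obtain ⟨ε, hε, hz⟩ := h
    refine ⟨ε, hε, fun z => ?_⟩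
    have h1 : ∀ᶠ k in (hyperfilter ℕ : Filter ℕ), ¬ dist (x k) z < ε :=
      Ultrafilter.eventually_not.2 (hz z)
    exact h1.mono fun k hk => not_lt.1 hk

end Pool.Agent.H32.PM
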